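import Pool.Agent.Helper54.Pp.Stm

/-! # CONE -/

set_option autoImplicit false

open Complex MeasureTheory Set Filter Topology

namespace Pool.Agent.Helper18.PP54

open Pool.Agent.Helper54.Pp
open Pool.Agent.Helper54.Xm Pool.Agent.Helper54.Hf Pool.Agent.Helper54.Nt Pool.Agent.Helper54.Nm

theorem pCONE : S_Cone := by
  intro ε T V0 x0 hV0 hV1 hM p hp1 hp2 hp3
  -- the largest scale
  obtain ⟨i, hi1, hi2⟩ : ∃ i : ℕ, V0 * 2 ^ i ≤ p.re ∧ p.re < V0 * 2 ^ (i + 1) := by
    have hex : ∃ n : ℕ, p.re < V0 * 2 ^ n := by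
      obtain ⟨n, hn⟩ := pow_unbounded_of_one_lt (p.re / V0) (by norm_num : (1 : ℝ) < 2)
      refine ⟨n, ?_⟩
      rw [div_lt_iff₀ hV0] at hn
      linarith
    classical
    have h1 := Nat.find_spec hex
    have h0 : Nat.find hex ≠ 0 := by
      intro h
      rw [h, pow_zero, mul_one] at h1
      linarith
    obtain ⟨i, hi⟩ := Nat.exists_eq_succ_of_ne_zero h0
    refine ⟨i, ?_, ?_⟩
    · have := Nat.find_min hex (m := i) (by omega)
      exact not_lt.1 this
    · rw [hi] at h1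
      exact h1
  have hG := hM i (hi1.trans hp2)
  have h2 : |p.im - x0| ≤ 120 * (V0 * 2 ^ i) := by
    rw [pow_succ] at hi2
    linarith
  exact hG.H1 p hi1 h2

end Pool.Agent.Helper18.PP54
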