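import Pool.Agent.Helper54.Pp.Stm
import Pool.Graph.R_pool_sql_team_seeded_3997aac3.Results.MP_ca0a54_nt.GapsForEveryPolynomial

/-! # LIB -/

set_option autoImplicit false

open Complex MeasureTheory Set Filter Topology

namespace Pool.Agent.Helper18.PP54

open Pool.Agent.Helper54.Pp
open Pool.Agent.Helper54.Xm Pool.Agent.Helper54.Hf Pool.Agent.Helper54.Nt Pool.Agent.Helper54.Nm
open Pool.Agent.Results.MP_ca0a54_nt.GapsForEveryPolynomial (B Mean zeros spacing close Mass)

lemma zero_fx {s : ℂ} (h0 : riemannZeta s = 0) (h1 : 0 < s.re) (hi : 0 < s.im) : fx (s - 1 / 2) = 0 := by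
  have e : (1 / 2 : ℂ) + (s - 1 / 2) = s := by ring
  rw [fx_eq (by
      rw [Complex.sub_re]
      norm_num
      exact h1) (by
      intro h
      have := congrArg Complex.im h
      norm_num at this
      exact hi.ne' this), e, h0, mul_zero]

lemma B_one (t : ℝ) : B 1 (fun _ => 1) t = 1 := by
  unfold B
  simp

theorem pLIB : S_Lib := by
  classical
  obtain ⟨hfin, η, θ, c, T₀, hη, hθ, hc, h⟩ :=
    Pool.Agent.Results.MP_ca0a54_nt.GapsForEveryPolynomial.result
  refine ⟨min η (1 / 2), c / (2 * Real.pi), max T₀ 1000, lt_min hη (by norm_num), min_le_right _ _,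
    by positivity, le_max_right _ _, ?_⟩
  intro T hT
  have hT0 : T₀ ≤ T := (le_max_left _ _).trans hT
  have hT1 : (1000 : ℝ) ≤ T := (le_max_right _ _).trans hT
  have h1 := (h T hT0 1 (by
    rw [Nat.cast_one]
    exact Real.one_le_rpow (by linarith) hθ.le) (fun _ => 1)).1
  have hM : Mean T 1 (fun _ => 1) = Real.log T / (2 * Real.pi) * T := by
    unfold Mean
    simp only [B_one, norm_one, one_pow, intervalIntegral.integral_const, smul_eq_mul]
    ring
  rw [hM] at h1
  have hcf : (close η T).Finite := (hfin T (by linarith)).subset fun s hs => hs.1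
  have hmem : ∀ s ∈ hcf.toFinset, s ∈ close η T := fun s hs => (Set.Finite.mem_toFinset hcf).1 hs
  have hms : Mass (close η T) 1 (fun _ => 1) = ∑ s ∈ hcf.toFinset, (analyticOrderNatAt riemannZeta s : ℝ) := by
    unfold Mass
    rw [finsum_mem_eq_finite_toFinset_sum _ hcf]
    refine Finset.sum_congr rfl fun s _ => ?_
    rw [B_one, norm_one, one_pow, mul_one]
  rw [hms] at h1
  have hinj : Set.InjOn (fun s : ℂ => s - 1 / 2) (hcf.toFinset : Set ℂ) := fun a _ b _ hab => by
    simpa using hab
  have hmult : ∀ s ∈ close η T, H370.mult fx (s - 1 / 2) = analyticOrderNatAt riemannZeta s := by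
    intro s hs
    obtain ⟨⟨h0, h2, h3, h4, h5⟩, _⟩ := hs
    have := mult_fx (u := s - 1 / 2) (by
      rw [Complex.sub_re]
      norm_num
      exact h2) (by
      rw [Complex.sub_im]
      norm_num
      linarith)
    have e : (1 / 2 : ℂ) + (s - 1 / 2) = s := by ring
    rw [e] at this
    have h9 := Nat.cast_injective this
    exact h9
  refine ⟨hcf.toFinset.image fun s => s - 1 / 2, ?_, ?_⟩
  · rw [Finset.sum_image hinj, Finset.sum_congr rfl fun s hs => by rw [hmult s (hmem s hs)]]
    refine le_trans (le_of_eq ?_) h1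
    field_simp
  · intro w hw
    obtain ⟨s, hs, rfl⟩ := Finset.mem_image.1 hw
    have hs' := hmem s hs
    obtain ⟨⟨h0, h2, h3, h4, h5⟩, h6⟩ := hs'
    have him : (s - 1 / 2 : ℂ).im = s.im := by
      rw [Complex.sub_im]; norm_num
    refine ⟨zero_fx h0 h2 (by linarith), by rw [him]; exact h4, by rw [him]; exact h5, ?_⟩
    rw [hmult s (hmem s hs)]
    rcases h6 with h6 | ⟨s', a0, a1, a2, a3, a4⟩
    · exact Or.inl h6
    · refine Or.inr ⟨s' - 1 / 2, zero_fx a0 a1 ?_, ?_, ?_⟩
      · -- the ordinate of `s'` is positive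
        have hlog : 1 ≤ Real.log T := by
          rw [Real.le_log_iff_exp_le (by linarith)]
          have := Real.exp_one_lt_d9
          linarith
        have hsp : (1 - η) * spacing T ≤ 8 := by
          unfold spacing
          have hpi := Real.pi_lt_four
          have h1 : 2 * Real.pi / Real.log T ≤ 8 := by
            rw [div_le_iff₀ (by linarith)]
            nlinarith
          have h0 : 0 ≤ 2 * Real.pi / Real.log T := by positivity
          nlinarith
        have := abs_le.1 (a4.trans hsp)
        linarith [this.1]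
      · intro h
        exact a3 (by simpa using h)
      · have e2 : (s' - 1 / 2 : ℂ).im = s'.im := by
          rw [Complex.sub_im]; norm_num
        rw [him, e2]
        refine a4.trans ?_
        unfold spacing
        have h0 : 0 ≤ 2 * Real.pi / Real.log T := by
          have : 0 ≤ Real.log T := Real.log_nonneg (by linarith)
          positivity
        exact mul_le_mul_of_nonneg_right (by linarith [min_le_left η (1 / 2)]) h0

end Pool.Agent.Helper18.PP54
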