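import Pool.Agent.Helper54.Pp.Stm

/-! # LINE -/

set_option autoImplicit false

open Complex MeasureTheory Set Filter Topology

namespace Pool.Agent.Helper18.PP54

open Pool.Agent.Helper54.Pp
open Pool.Agent.Helper54.Xm Pool.Agent.Helper54.Hf Pool.Agent.Helper54.Nt Pool.Agent.Helper54.Nm

lemma ln_eq (q : ℂ) (u : ℝ) : ln q.re (q.im + u) = q + I * u := by
  apply Complex.ext <;> simp [ln]

lemma dom_int {b : ℝ} (hb : 0 < b) (c K D : ℝ) :
    Integrable fun u : ℝ => D * (K * Real.exp (-b * (u - c) ^ 2) + |(u - c) * Real.exp (-b * (u - c) ^ 2)|) := by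
  have h1 := ((integrable_exp_neg_mul_sq hb).comp_sub_right c).const_mul K
  have h2 := ((integrable_mul_exp_neg_mul_sq hb).comp_sub_right c).norm
  refine (h1.add h2).const_mul D |>.congr (Eventually.of_forall fun u => ?_)
  simp only [Pi.add_apply, Real.norm_eq_abs]

lemma cont_g (τ b : ℝ) (z : ℂ) : Continuous fun u : ℝ => fx (ln b u) * cexp ((ln b u - z) ^ 2 / (4 * τ)) := by
  have h1 : Continuous fun u : ℝ => fx (ln b u) := fx_diff.continuous.comp (ln_cont b)
  have h2 := ln_cont b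
  exact h1.mul (by fun_prop)

lemma cont_g' (τ b : ℝ) (z : ℂ) : Continuous fun u : ℝ => fx (ln b u) * cexp ((ln b u - z) ^ 2 / (4 * τ)) *
    (-(ln b u - z) / (2 * τ)) := by
  have h2 := ln_cont b
  exact (cont_g τ b z).mul (by fun_prop)

/-- bound of the integrand near `w` -/
lemma bd {τ C : ℝ} (hτ : 0 < τ) (hC0 : 0 < C) (hC : ∀ w : ℂ, ‖fx w‖ ≤ C * Real.exp (w.re ^ 2 / 16)) (b : ℝ) (w z : ℂ)
    (hz : ‖z - w‖ ≤ 1) (u : ℝ) :
    ‖fx (ln b u) * cexp ((ln b u - z) ^ 2 / (4 * τ))‖ ≤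
      C * Real.exp (b ^ 2 / 16) * Real.exp (((|b - w.re| + 1) ^ 2 + 1) / (4 * τ)) *
        Real.exp (-(1 / (8 * τ)) * (u - w.im) ^ 2) := by
  rw [norm_mul, norm_gk]
  have h1 : ‖fx (ln b u)‖ ≤ C * Real.exp (b ^ 2 / 16) := by
    have := hC (ln b u)
    rwa [ln_re] at this
  have hre : |z.re - w.re| ≤ 1 := by
    have := (Complex.abs_re_le_norm (z - w)).trans hz
    rwa [Complex.sub_re] at this
  have him : |z.im - w.im| ≤ 1 := by
    have := (Complex.abs_im_le_norm (z - w)).trans hz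
    rwa [Complex.sub_im] at this
  have h2 : (b - z.re) ^ 2 ≤ (|b - w.re| + 1) ^ 2 := by
    rw [← sq_abs (b - z.re)]
    have h3 : |b - z.re| ≤ |b - w.re| + 1 := by
      have e : b - z.re = (b - w.re) - (z.re - w.re) := by ring
      rw [e]
      exact (abs_sub _ _).trans (by linarith)
    exact pow_le_pow_left₀ (abs_nonneg _) h3 2
  have h4 : (u - w.im) ^ 2 / 2 - 1 ≤ (u - z.im) ^ 2 := by
    have h5 : (z.im - w.im) ^ 2 ≤ 1 := by
      rw [← sq_abs]
      exact pow_le_one₀ (abs_nonneg _) him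
    nlinarith [sq_nonneg ((u - z.im) - (z.im - w.im))]
  have h6 : Real.exp (((b - z.re) ^ 2 - (u - z.im) ^ 2) / (4 * τ)) ≤
      Real.exp (((|b - w.re| + 1) ^ 2 + 1) / (4 * τ)) * Real.exp (-(1 / (8 * τ)) * (u - w.im) ^ 2) := by
    rw [← Real.exp_add]
    apply Real.exp_le_exp.2
    have e : ((|b - w.re| + 1) ^ 2 + 1) / (4 * τ) + -(1 / (8 * τ)) * (u - w.im) ^ 2 =
        (((|b - w.re| + 1) ^ 2 + 1) - (u - w.im) ^ 2 / 2) / (4 * τ) := by
      field_simp
      ring
    rw [e]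
    apply div_le_div_of_nonneg_right _ (by positivity)
    linarith
  calc ‖fx (ln b u)‖ * Real.exp (((b - z.re) ^ 2 - (u - z.im) ^ 2) / (4 * τ)) ≤
      (C * Real.exp (b ^ 2 / 16)) * (Real.exp (((|b - w.re| + 1) ^ 2 + 1) / (4 * τ)) *
        Real.exp (-(1 / (8 * τ)) * (u - w.im) ^ 2)) := by
        exact mul_le_mul h1 h6 (Real.exp_pos _).le (by positivity)
    _ = _ := by ring

lemma line_deriv {τ : ℝ} (hτ : 0 < τ) (b : ℝ) (w : ℂ) :
    ∫ u : ℝ, fx (ln b u) * cexp ((ln b u - w) ^ 2 / (4 * τ)) * (-(ln b u - w) / (2 * τ)) =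
      (Real.sqrt (4 * Real.pi * τ) : ℂ) * deriv (Hx (-τ)) w := by
  obtain ⟨C, hC0, hC⟩ := fx_gr
  obtain ⟨D, hD⟩ : ∃ D : ℝ, D = C * Real.exp (b ^ 2 / 16) * Real.exp (((|b - w.re| + 1) ^ 2 + 1) / (4 * τ)) :=
    ⟨_, rfl⟩
  have hD0 : 0 ≤ D := by rw [hD]; positivity
  have hbt : 0 < 1 / (8 * τ) := by positivity
  have h := hasDerivAt_integral_of_dominated_loc_of_deriv_le (μ := volume) (𝕜 := ℂ)
    (F := fun (z : ℂ) (u : ℝ) => fx (ln b u) * cexp ((ln b u - z) ^ 2 / (4 * τ)))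
    (F' := fun (z : ℂ) (u : ℝ) => fx (ln b u) * cexp ((ln b u - z) ^ 2 / (4 * τ)) * (-(ln b u - z) / (2 * τ)))
    (x₀ := w) (s := Metric.ball w 1)
    (bound := fun u => (D / (2 * τ)) * ((|b - w.re| + 2) * Real.exp (-(1 / (8 * τ)) * (u - w.im) ^ 2) +
      |(u - w.im) * Real.exp (-(1 / (8 * τ)) * (u - w.im) ^ 2)|))
    (Metric.ball_mem_nhds w one_pos)
    (Eventually.of_forall fun z => (cont_g τ b z).aestronglyMeasurable)
    (by
      refine Integrable.mono' (((integrable_exp_neg_mul_sq hbt).comp_sub_right w.im).const_mul D)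
        (cont_g τ b w).aestronglyMeasurable (Eventually.of_forall fun u => ?_)
      have := bd hτ hC0 hC b w w (by simp) u
      rw [← hD] at this
      exact this)
    (cont_g' τ b w).aestronglyMeasurable
    (Eventually.of_forall fun u z hz => ?_) (dom_int hbt _ _ _)
    (Eventually.of_forall fun u z hz => ?_)
  · have h1 := h.2
    have h2 : (fun z : ℂ => ∫ u : ℝ, fx (ln b u) * cexp ((ln b u - z) ^ 2 / (4 * τ))) =
        fun z => (Real.sqrt (4 * Real.pi * τ) : ℂ) * Hx (-τ) z := by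
      funext z
      exact Hx_neg hτ b z
    rw [h2] at h1
    have h3 : HasDerivAt (fun z => (Real.sqrt (4 * Real.pi * τ) : ℂ) * Hx (-τ) z)
        ((Real.sqrt (4 * Real.pi * τ) : ℂ) * deriv (Hx (-τ)) w) w :=
      ((Hx_diff (t := -τ) (by linarith)) w).hasDerivAt.const_mul _
    exact h1.unique h3
  · have hz' : ‖z - w‖ ≤ 1 := by
      rw [Metric.mem_ball, dist_eq_norm] at hz
      exact hz.le
    have h1 := bd hτ hC0 hC b w z hz' u
    rw [← hD] at h1
    rw [norm_mul]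
    have h2 : ‖-(ln b u - z) / (2 * (τ : ℂ))‖ ≤ (|b - w.re| + 2 + |u - w.im|) / (2 * τ) := by
      rw [norm_div, norm_neg]
      have e1 : ‖(2 * (τ : ℂ))‖ = 2 * τ := by
        rw [norm_mul, Complex.norm_real, Real.norm_of_nonneg hτ.le]
        norm_num
      rw [e1]
      apply div_le_div_of_nonneg_right _ (by positivity)
      have e2 : ln b u - z = (ln b u - w) - (z - w) := by ring
      rw [e2]
      refine (norm_sub_le _ _).trans ?_
      have h3 := Complex.norm_le_abs_re_add_abs_im (ln b u - w)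
      rw [Complex.sub_re, Complex.sub_im, ln_re, ln_im] at h3
      linarith
    calc ‖fx (ln b u) * cexp ((ln b u - z) ^ 2 / (4 * τ))‖ * ‖-(ln b u - z) / (2 * (τ : ℂ))‖ ≤
        (D * Real.exp (-(1 / (8 * τ)) * (u - w.im) ^ 2)) * ((|b - w.re| + 2 + |u - w.im|) / (2 * τ)) :=
          mul_le_mul h1 h2 (norm_nonneg _) (by positivity)
      _ = _ := by
          simp only [abs_mul, Real.abs_exp]
          ring
  · have hτ' : (τ : ℂ) ≠ 0 := by exact_mod_cast hτ.ne'
    have h1 : HasDerivAt (fun z : ℂ => (ln b u - z) ^ 2 / (4 * (τ : ℂ))) (-(ln b u - z) / (2 * (τ : ℂ))) z := by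
      have h2 := ((((hasDerivAt_id z).const_sub (ln b u)).pow 2).div_const (4 * (τ : ℂ)))
      refine h2.congr_deriv ?_
      simp only [id]
      field_simp
      ring
    have h3 := (h1.cexp).const_mul (fx (ln b u))
    refine h3.congr_deriv ?_
    ring

theorem pLINE : S_Line := by
  intro τ w q hτ _
  constructor
  · rw [← Hx_neg hτ q.re w,
      ← integral_add_left_eq_self (fun u : ℝ => fx (ln q.re u) * cexp ((ln q.re u - w) ^ 2 / (4 * τ))) q.im]
    refine integral_congr_ae (Eventually.of_forall fun u => ?_)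
    simp only
    rw [ln_eq]
  · rw [← line_deriv hτ q.re w,
      ← integral_add_left_eq_self (fun u : ℝ => fx (ln q.re u) * cexp ((ln q.re u - w) ^ 2 / (4 * τ)) *
        (-(ln q.re u - w) / (2 * τ))) q.im]
    refine integral_congr_ae (Eventually.of_forall fun u => ?_)
    simp only
    rw [ln_eq]

end Pool.Agent.Helper18.PP54
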